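import Pool.Agent.Work.MP_a8bd83_qk.Odd

/-!
# MP_a8bd83_gt: smooth quaternionic Kähler quotients of quaternionic projective spaces, all groups

`V` is `H^N` with its Hermitian product and its quaternionic structure `J`, `k` is a Lie algebra of
skew-adjoint operators of `V` commuting with `J`, `t` a maximal abelian subalgebra (of dimension `r`), and
the group `exp k` acts freely modulo `± 1` on the quaternionic lines spanned by the zeros of the
quaternionic moment map, so that the quotient of Galicki and Lawson is a smooth positive quaternionic
Kähler manifold of dimension `4 (N - 1 - dim k)`.  If `N > dim k + 3 r`, or if `N > dim k + r` and every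
root takes an odd value on some coroot, then the group acts by quaternionic scalars, and the quotient is
one of the three classical symmetric spaces.

The proof: a real space of quaternionic skew-Hermitian forms on `H^n` of dimension less than `n` has a
common isotropic vector (look at the minimum of the sum of the squares on the unit sphere).  So an
involution `g ≠ ± 1` of the group fixes a point of the zero set as soon as `N > 2 dim Z(g)`, and an
involution with a small centraliser is found by averaging over the coroot lattice modulo two.
-/

set_option autoImplicit false

open Module MPa8bd83

namespace Pool.Agent.Results.MP_a8bd83_gt.AllGroups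

/-- Smooth quaternionic Kähler quotients of quaternionic projective spaces, of large dimension with
respect to the rank of the group, are the classical ones. -/
theorem result (V : Type) [NormedAddCommGroup V] [InnerProductSpace ℂ V] [FiniteDimensional ℂ V]
    (J : V → V) (hJ : IsQuatStr J) (N : ℕ) (hV : finrank ℂ V = 2 * N)
    (k t : Submodule ℝ (V →L[ℂ] V)) (hk : IsLieSub J k) (hf : FreeOnZeros J k)
    (ht : MaxAb k t)
    (h : finrank ℝ k + 3 * finrank ℝ t < N ∨
      (finrank ℝ k + finrank ℝ t < N ∧ OddRoots k t)) : ActsByScalars N J k :=
  main_linear' hJ hk ht hf N hV h

end Pool.Agent.Results.MP_a8bd83_gt.AllGroups
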