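import Pool.Agent.Work.MP_a8bd83_qk.Final7

/-!
# MP_a8bd83_gt: smooth quaternionic Kähler quotients of quaternionic projective spaces by simple
classical groups

`V` is `H^N` with its Hermitian product and its quaternionic structure `J`, `k` is a Lie algebra of
skew-adjoint operators of `V` commuting with `J` which is isomorphic to `su(n)` (`n ≥ 2`), `so(n)`
(`n ≥ 7`) or `sp(n)` (`n ≥ 2`), in an arbitrary representation, and the group `exp k` acts freely modulo
`± 1` on the quaternionic lines spanned by the zeros of the quaternionic moment map, so that the quotient
of Galicki and Lawson is a smooth positive quaternionic Kähler manifold of dimension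
`4 (N - 1 - dim k) ≥ 8`.  Then `k` acts by quaternionic scalars, so it is `sp(1)`, and the quotient is
the oriented Grassmannian of four-planes.

The proof: a real space of quaternionic skew-Hermitian forms on `H^n` of dimension less than `n` has a
common isotropic vector.  So an involution `g ≠ ± 1` of the group fixes a point of the zero set as soon as
`N > 2 dim Z(g)`, and `diag(-1, .., -1, 1, .., 1)` is such an involution in all representations (for
`Spin(n)` if the number of the `-1` is divisible by four).  For `SU(n)`, `n = 2 mod 4`, the `-1`
eigenspace has quaternionic dimension divisible by two; for `Sp(n)` the weights of the representation and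
the fixed points of other elements are also used.
-/

set_option autoImplicit false

open Module MPa8bd83

namespace Pool.Agent.Results.MP_a8bd83_gt.ClassicalGroups

/-- Smooth quaternionic Kähler quotients, of dimension at least eight, of quaternionic projective spaces
by simple classical groups are classical: the group acts by quaternionic scalars. -/
theorem result (V : Type) [NormedAddCommGroup V] [InnerProductSpace ℂ V] [FiniteDimensional ℂ V]
    (J : V → V) (hJ : IsQuatStr J) (N : ℕ) (hV : finrank ℂ V = 2 * N)
    (k : Submodule ℝ (V →L[ℂ] V)) (hk : IsLieSub J k) (hf : FreeOnZeros J k) (n : ℕ)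
    (hc : (2 ≤ n ∧ IsSu n k) ∨ (7 ≤ n ∧ IsSo n k) ∨ (2 ≤ n ∧ IsSpn n k))
    (h : finrank ℝ k + 3 ≤ N) : ActsByScalars N J k :=
  main_simple hJ hk hf N hV n hc h

end Pool.Agent.Results.MP_a8bd83_gt.ClassicalGroups
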