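import Pool.Agent.Work.MP_a8bd83_qk.Final6

/-!
# MP_a8bd83_gt: the fixed point inequality for smooth quaternionic Kähler quotients

`V` is `H^N` with its Hermitian product and its quaternionic structure `J`, `k` is a Lie algebra of
skew-adjoint operators of `V` commuting with `J`, and the group `exp k` acts freely modulo `± 1` on the
quaternionic lines spanned by the zeros of the quaternionic moment map, so that the quotient of Galicki
and Lawson is a smooth positive quaternionic Kähler manifold.  Then for every `g ≠ ± 1` in `exp k` the
eigenspaces `E` of `g` at `± 1` satisfy `dim_H E ≤ dim (Z(g)|E)`, where `Z(g)` is the centraliser of `g`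
in `k`.  In particular `N ≤ 2 dim Z(g)` for every involution `g ≠ ± 1`, and there is no such quotient, of
any dimension, as soon as some involution has `dim Z(g) ≤ dim k / 2`.

The proof: `E` is a quaternionic space, the moment map of `k` restricted to `E` is the one of `Z(g)`, and
a real space of quaternionic skew-Hermitian forms on `H^n` of dimension less than `n` has a common
isotropic vector (look at the minimum of the sum of the squares on the unit sphere).
-/

set_option autoImplicit false

open Module MPa8bd83

namespace Pool.Agent.Results.MP_a8bd83_gt.FixedPointInequality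

/-- The fixed point inequality. -/
theorem result (V : Type) [NormedAddCommGroup V] [InnerProductSpace ℂ V] [FiniteDimensional ℂ V]
    (J : V → V) (hJ : IsQuatStr J) (k : Submodule ℝ (V →L[ℂ] V)) (hk : IsLieSub J k)
    (hf : FreeOnZeros J k) (g : V →L[ℂ] V) (hg : ∃ ξ ∈ k, g = NormedSpace.exp ξ) (h1 : g ≠ 1)
    (h2 : g ≠ -1) (E : Submodule ℂ V)
    (hE : (∀ x, x ∈ E ↔ g x = x) ∨ (∀ x, x ∈ E ↔ g x = -x)) :
    finrank ℂ E ≤ 2 * finrank ℝ ((Cz k g).map (rst E)) :=
  main_fpi hJ hk hf g hg h1 h2 E hE

end Pool.Agent.Results.MP_a8bd83_gt.FixedPointInequality
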