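import Pool.Agent.Work.MP_a8bd83_qk.Final

/-!
# MP_a8bd83_gt: smooth quaternionic Kähler quotients of quaternionic projective spaces, rank at most two

`V` is `H^N` with its Hermitian product and its quaternionic structure `J`, `k` is a Lie algebra of
skew-adjoint operators of `V` commuting with `J`, `t` a maximal abelian subalgebra of dimension at
most two, and the group `exp k` acts freely modulo `± 1` on the quaternionic lines spanned by the zeros
of the quaternionic moment map, so that the quotient of Galicki and Lawson is a smooth positive
quaternionic Kähler manifold, of dimension `4 (N - 1 - dim k)`, at least eight.  Then the group acts by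
quaternionic scalars, and the quotient is one of the three classical symmetric spaces.
-/

set_option autoImplicit false

open Module MPa8bd83

namespace Pool.Agent.Results.MP_a8bd83_gt.RankAtMostTwo

/-- Smooth quaternionic Kähler quotients of quaternionic projective spaces by groups of rank at most
two, of dimension at least eight, are the classical ones. -/
theorem result (V : Type) [NormedAddCommGroup V] [InnerProductSpace ℂ V] [FiniteDimensional ℂ V]
    (J : V → V) (hJ : IsQuatStr J) (N : ℕ) (hV : finrank ℂ V = 2 * N)
    (k t : Submodule ℝ (V →L[ℂ] V)) (hk : IsLieSub J k) (hf : FreeOnZeros J k)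
    (ht : MaxAb k t) (hr : finrank ℝ t ≤ 2) (hN : finrank ℝ k + 3 ≤ N) : ActsByScalars N J k :=
  MPa8bd83.main V J k t hJ hk ht hf N hV (Or.inl ⟨hr, hN⟩)

end Pool.Agent.Results.MP_a8bd83_gt.RankAtMostTwo
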